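import Pool.Agent.Helper49.RU.St

/-!
# Project RU (MP_a60174_an), module HLB: `H` is a complemented subspace of the real `ℓ²`
-/

set_option autoImplicit false

namespace Pool.Agent.Helper47.RU

open Pool.Agent.Helper49.RU
open MeasureTheory Filter Topology Complex
open scoped ENNReal Cardinal ComplexConjugate

/-- indices of the real coordinates -/
private abbrev Ix : Type := (Σ k : ℕ, (Fin k → Fin 3)) × Bool

/-- `1` or `I` -/
private noncomputable def un (b : Bool) : ℂ := if b then Complex.I else 1

private theorem un_inner (b b' : Bool) : (inner ℝ (un b) (un b') : ℝ) = if b = b' then 1 else 0 := by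
  rw [Complex.inner]
  cases b <;> cases b' <;> simp [un]

private theorem un_tot {z : ℂ} (h : ∀ b, (inner ℝ (un b) z : ℝ) = 0) : z = 0 := by
  have h1 := h false
  have h2 := h true
  rw [Complex.inner] at h1 h2
  simp [un] at h1 h2
  exact Complex.ext h1 h2

/-- the real orthonormal basis of `H` -/
private noncomputable def vv (x : Ix) : H :=
  lp.single 2 x.1.1 (WithLp.toLp 2 (Pi.single x.1.2 (un x.2)))

private theorem vv_inner (x : Ix) (f : H) :
    (inner ℝ (vv x) f : ℝ) = inner ℝ (un x.2) (f x.1.1 x.1.2) := by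
  unfold vv
  rw [lp.inner_single_left, PiLp.inner_apply, Finset.sum_eq_single x.1.2]
  · simp
  · intro s _ hs
    simp [Pi.single_eq_of_ne hs]
  · intro h
    exact absurd (Finset.mem_univ _) h

private theorem vv_on : Orthonormal ℝ vv := by
  rw [orthonormal_iff_ite]
  rintro ⟨⟨k, s⟩, b⟩ ⟨⟨l, t⟩, b'⟩
  rw [vv_inner]
  simp only
  by_cases hkl : k = l
  · subst hkl
    have h1 : (vv (⟨k, t⟩, b') : H) k = WithLp.toLp 2 (Pi.single t (un b')) := by
      unfold vv
      exact lp.single_apply_self _ _ _
    rw [h1]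
    by_cases hst : s = t
    · subst hst
      have h2 : (WithLp.toLp 2 (Pi.single s (un b')) : V k) s = un b' := by
        simp
      rw [h2, un_inner]
      by_cases hb : b = b' <;> simp [hb]
    · have h2 : (WithLp.toLp 2 (Pi.single t (un b')) : V k) s = 0 := by
        simp [Pi.single_eq_of_ne hst]
      rw [h2, inner_zero_right, if_neg]
      intro h
      apply hst
      simpa using congrArg Prod.fst h
  · have h1 : (vv (⟨l, t⟩, b') : H) k = 0 := by
      unfold vv
      exact lp.single_apply_ne _ _ _ hkl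
    rw [h1, if_neg]
    · simp
    · intro h
      apply hkl
      exact congrArg (fun z : Ix => z.1.1) h

private theorem vv_tot : (Submodule.span ℝ (Set.range vv))ᗮ = ⊥ := by
  rw [eq_bot_iff]
  intro f hf
  rw [Submodule.mem_bot]
  have h1 : ∀ x, (inner ℝ (vv x) f : ℝ) = 0 := fun x =>
    (Submodule.mem_orthogonal _ f).1 hf (vv x) (Submodule.subset_span ⟨x, rfl⟩)
  ext k s
  have h2 : ∀ b, (inner ℝ (un b) (f k s) : ℝ) = 0 := fun b => by
    have := h1 (⟨k, s⟩, b)
    rwa [vv_inner] at this
  have h3 := un_tot h2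
  simpa using h3

private theorem uu_on {e : Ix → ℕ} (he : Function.Injective e) :
    Orthonormal ℝ (fun x => (lp.single 2 (e x) (1 : ℝ) : lp (fun _ : ℕ => ℝ) 2)) := by
  rw [orthonormal_iff_ite]
  intro x y
  rw [lp.inner_single_left]
  by_cases h : x = y
  · subst h
    rw [lp.single_apply_self, if_pos rfl]
    simp
  · rw [lp.single_apply_ne _ _ _ (fun h' => h (he h')), if_neg h]
    simp

/-- HLB. -/
theorem hHLB : StHLB := by
  obtain ⟨e, he⟩ := exists_injective_nat Ix
  obtain ⟨b, -⟩ : ∃ b : HilbertBasis Ix ℝ H, True :=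
    ⟨HilbertBasis.mkOfOrthogonalEqBot vv_on vv_tot, trivial⟩
  obtain ⟨j, -⟩ : ∃ j : H →ₗᵢ[ℝ] lp (fun _ : ℕ => ℝ) 2, True :=
    ⟨((uu_on he).orthogonalFamily).linearIsometry.comp b.repr.toLinearIsometry, trivial⟩
  refine ⟨j.toContinuousLinearMap, ContinuousLinearMap.adjoint j.toContinuousLinearMap, fun h => ?_⟩
  refine ext_inner_right ℝ fun z => ?_
  rw [ContinuousLinearMap.adjoint_inner_left]
  exact j.inner_map_map h z

end Pool.Agent.Helper47.RU
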